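import Pool.Agent.Helper82.TM.ITF
import Pool.Agent.Helper51.TM.LBM
import Pool.Agent.Helper21.TM.BX

/-!
Plan W (MP_c75db0), Taylor machine: the theorem of the dispatcher of the invariance in frames
(`itJ`), the theorem of the inclusions (`inJ`), the model of the scale.
-/

set_option autoImplicit false
noncomputable section
namespace Pool.Agent.Helper91.TMK.ITF

open Matrix
open Pool.Agent.Helper90.C75 (Vt)
open Pool.Agent.Helper90.KMO (UU UU_pos UUc_ne cz zv zv_p andB_t)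
open Pool.Agent.Helper86.C75 (Z)
open Pool.Agent.Helper86.CX (Cx andB)
open Pool.Agent.Helper86.CT (N3 Alg Mo KM mk cst addM subM mulM conjM invM invOK nx)
open Pool.Agent.Helper17.K9 (V9)
open Pool.Agent.Helper62.TVM (V3m C9)
open Pool.Agent.Helper62.LBM (RH rhM rhOK)
open Pool.Agent.Helper51.FR (LE LM trK inc_hat)
open Pool.Agent.Helper26.XM (oneM sDm_even)
open Pool.Agent.Helper26.XH (FH)
open Pool.Agent.Helper26.IT (RL RL_K even_of condB Pd_k upK)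
open Pool.Agent.Helper26.SF (Sf sfOK sfM sfR afR sf_pos)
open Pool.Agent.Helper91.BX (upM upW upV tu crM afM)
open Pool.Agent.Helper82.TST (H6 jFC Fr frA frB frK frN frR frS dtC nzC)
open Pool.Agent.Helper82.FRD (frOK raM cbM gaM n0M n1M nrM naM nbM ntM jr ouR IN_fr)
open Pool.Agent.Helper91.TMK.TST
open Pool.Agent.Helper91.TMK.SW
open Pool.Agent.Helper91.TMK.IT
open Pool.Agent.Helper91.TMK.LBM (TRH TRH_all)
open Pool.Agent.Helper91.TMK.BX (CD TOK_af)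
open Pool.Agent.Helper6.MONO (V3)
open Pool.Agent.Helper6.MONO.W2 (Mt NZ IN rfJ rM rn nW nWd ns nsd Sy sDm phi Prt RPar sati Pd
  cs sc brJ ep)
open Pool.Agent.Helper21.SW (Mu cK)

variable {α κ γ : Type}

section

variable {D : ℕ} {lf : Mch α} {A : Alg α} {t : ℕ → ℝ} {v : V3} {G3 : GT α} {G4 : GT (N3 α)}

/-! ### the scale -/

theorem TOK_af' (hA : AOK D lf A) (hP : PT D t) {j : ℕ} {q : Cx → Cx → Cx → α}
    (hq : CD D j lf q) (hj : j < D) (a b : ℕ) :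
    TOK D lf t ((afR a b (t j) : ℝ) : ℂ) (afM A q a b (nat_lit 0)) := by
  refine TOK_af hA hP hq hj (r := 0) ?_
  have e : (2 : ℝ) ^ 48 = UU := by unfold UU; norm_num
  rw [e]
  unfold afR
  rw [mul_div_cancel₀ _ UU_pos.ne', sub_self, abs_zero]
  exact le_of_eq Nat.cast_zero.symm

/-- MODEL OF THE SCALE -/
theorem TOK_sf' (hA : AOK D lf A) (hP : PT D t) (hD : 3 ≤ D) {qd : ℕ → Cx → Cx → Cx → α}
    (hq : ∀ j < 3, CD D j lf (qd j)) (s : Sf) : TOK D lf t ((sfR s t : ℝ) : ℂ) (sfM A qd s) := by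
  refine tc (((TOK_af' hA hP (hq 0 (by omega)) (by omega) s.a0 s.b0).mul hA hP
    (TOK_af' hA hP (hq 1 (by omega)) (by omega) s.a1 s.b1)).mul hA hP
    (TOK_af' hA hP (hq 2 (by omega)) (by omega) s.a2 s.b2)) ?_
  unfold sfR
  push_cast
  ring

/-! ### the parameters -/

variable {R : RPar} {g : Sy} {E : LE} {C : Mo α}

/-- A PIECE: the point of depth 4 and the model of `ρ` -/
theorem ro_ex' (hA : AOKn 2 3 lf A) (hP : PT 3 t) (hR : RL R g E)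
    (hC : TOK 3 lf t ((R.ch g : ℝ) : ℂ) C) {i : ℕ}
    {τ : ℝ} (b1 : R.τ g i ≤ τ) (b2 : τ ≤ R.τ g (i + 1)) : ∃ u : ℝ, 0 ≤ u ∧ u ≤ 1 ∧
      PT 4 (tu 3 t u) ∧ TOK 4 (nM 3 lf) (tu 3 t u) ((τ * R.ch g : ℝ) : ℂ) (roM A E C i) := by
  rw [hR.τ] at b1 b2
  have hU : UU = 2 ^ 48 := by unfold UU; norm_num
  obtain ⟨u, h0, h1, h2, h3⟩ := cr_ex (τ := τ) (a := E.tau.getD i 0) (b := E.tau.getD (i + 1) 0)
    hA hP (by norm_num) (by rw [← hU]; exact b1) (by rw [← hU]; exact b2)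
  refine ⟨u, h0, h1, h2, tc (h3.mul (AOK_nx hA) h2 (TOK.up hA hC u)) ?_⟩
  push_cast
  ring

/-- the tests of an exact run -/
theorem exOK_ok' (hA : AOKn 2 3 lf A) (hP : PT 3 t) {w : ℝ} {L : LM α}
    (hw : TOK 3 lf t ((w : ℝ) : ℂ) L.w) {m : ℕ}
    (h : exOK A L m = true) : TRH 3 lf t w (m + 1) (rhM A L.w (invM A L.w) m) := by
  obtain ⟨b1, b2⟩ := andB_t h
  exact TRH_all (a3n hA) hP hw (TOK.inv (a3n hA) hP hw b1).1 m b2

/-- **THE DISPATCHER OF THE INVARIANCE IN FRAMES** -/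
theorem itJ_ok {lq : Mch (N3 α)} (hA : AOKn 2 3 lf A) (hG3 : GeL 3 lf G3)
    (hG4 : GeL 4 (nM 3 lf) G4) {KV : κ → (ℕ → ℝ) → Mt} {T : TK α κ γ} (hT : TKL lf lq KV T)
    (hP : PT 3 t) (h2 : brJ 1 v v = 2)
    {qd : ℕ → Cx → Cx → Cx → α} (hq : ∀ j < 3, CD 3 j lf (qd j)) {F : FH α} {L : LM α} {p c : ℕ}
    (hv : TW 3 lf t v F.v) (hs : TW 3 lf t (ns (phi p) v (cs c).1 (cs c).2) L.s)
    (hw : TOK 3 lf t ((nW (phi p) v (cs c) : ℝ) : ℂ) L.w)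
    (hp : TOK 3 lf t ((if (cs c).1 then star (ep (phi p)) else ep (phi p)) ^ (cs c).2) L.P)
    (hR : RL R (cs c) E)
    (hC : TOK 3 lf t ((R.ch (cs c) : ℝ) : ℂ) C) {P : ℕ} {k1 kt : κ} {f g : Fr} {d : Mu × Sf}
    (h : itJ A qd G3 G4 T F L E C c P k1 kt f g d = true) :
    sati R (phi p) v (cs c) (Pd P) (cK v (KV k1 t)) (cK v (KV kt t)) := by
  have e : ∀ {a : ℕ}, Nat.beq (Nat.mod P (nat_lit 8)) a = true → P % 8 = a := fun h =>
    Nat.eq_of_beq_eq_true h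
  obtain ⟨hfr, h⟩ := andB_t h
  obtain ⟨hsf, h⟩ := andB_t h
  have hA3 := a3n hA
  have r0 := sf_pos hsf hP le_rfl
  have hS := TOK_sf' hA3 hP le_rfl hq d.2
  have hKf : HK 3 lf t ((frR f)ᴴ * KV k1 t * frR f) (frK A f (T.km k1)) :=
    (hT.km (k := k1) hP).g9 hA3 hP (TV_frA hA3 hP f)
  have hKg : HK 3 lf t ((frR g)ᴴ * KV kt t * frR g) (frK A g (T.km kt)) :=
    (hT.km (k := kt) hP).g9 hA3 hP (TV_frA hA3 hP g)
  unfold fiD at h
  rcases condB h with ⟨hk, h⟩ | h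
  · rw [Pd_k, e hk]
    obtain ⟨b1, b2⟩ := andB_t h
    exact f3V_ok hG3 hA hP h2 hfr hKf hKg r0 hS (TV_rt3 hA hP hv hp (even_of b1) f g) b2
  rcases condB h with ⟨hk, h⟩ | h
  · rw [Pd_k, e hk]
    show IN _ _ v (rM (phi p) v (cs c) (rn (nW (phi p) v (cs c)) (P / 8)))
    have h' : fiE A G3 f g F L d.1 (sfM A qd d.2) (frK A f (T.km k1)) (frK A g (T.km kt))
      (P / 8) = true := h
    generalize P / 8 = n at h' ⊢
    cases n with
    | zero => exact absurd h' Bool.false_ne_true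
    | succ j =>
      obtain ⟨b1, b2⟩ := andB_t (show andB (exOK A L j) (f3V A G3 f d.1 (sfM A qd d.2)
        (frK A f (T.km k1)) (frK A g (T.km kt))
        (f3N A f g F L (rhM A L.w (invM A L.w) j).r)) = true from h')
      have hx := exOK_ok' hA hP hw b1
      exact f3V_ok hG3 hA hP h2 hfr hKf hKg r0 hS (TV_f3 hA hP h2 hv hs hw f g hx.r) b2
  rcases condB h with ⟨hk, h⟩ | h
  · rw [Pd_k, e hk]
    intro τ b1 b2
    obtain ⟨u, u0, u1, hP4, hρ⟩ := ro_ex' hA hP hR hC b1 b2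
    exact f4V_ok hG4 hA h2 hP4 hfr hKf hKg r0 hS (TV_f4 hA hP h2 hP4 hv hs hw f g hρ) h
  rcases condB h with ⟨hk, h⟩ | h
  · rw [Pd_k, e hk]
    intro τ b1 b2
    obtain ⟨u, u0, u1, hP4, hρ⟩ := ro_ex' hA hP hR hC b1 b2
    exact f4V_ok hG4 hA h2 hP4 hfr hKf hKg r0 hS (TV_f4 hA hP h2 hP4 hv hs hw f g hρ) h
  rcases condB h with ⟨hk, h⟩ | h
  · rw [Pd_k, e hk]
    trivial
  · rw [Pd_k, e h]
    trivial

/-- **THE INCLUSIONS IN A FRAME** -/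
theorem inJ_ok {lq : Mch (N3 α)} (hA : AOKn 2 3 lf A) (hG3 : GeL 3 lf G3)
    {KV : κ → (ℕ → ℝ) → Mt} {T : TK α κ γ} (hT : TKL lf lq KV T) (hP : PT 3 t)
    (h2 : brJ 1 v v = 2) {qd : ℕ → Cx → Cx → Cx → α} (hq : ∀ j < 3, CD 3 j lf (qd j))
    {ki ke : κ} {f : Fr} {d : Mu × Sf} (h : inJ A qd G3 T ki ke f d = true) :
    NZ (cK v (KV ke t)) ⊆ NZ (cK v (KV ki t)) := by
  obtain ⟨b1, h⟩ := andB_t h
  obtain ⟨b2, h⟩ := andB_t h
  obtain ⟨hs, h⟩ := andB_t h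
  have hA3 := a3n hA
  exact inc_hat h2 fun u hu => incK_ok hG3 hP b1 (Nat.le_of_ble_eq_true b2) hA3
    ((hT.km (k := ki) hP).g9 hA3 hP (TV_frA hA3 hP f))
    ((hT.km (k := ke) hP).g9 hA3 hP (TV_frA hA3 hP f)) (sf_pos hs hP le_rfl)
    (TOK_sf' hA3 hP le_rfl hq d.2) h u hu

end

end Pool.Agent.Helper91.TMK.ITF
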