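import Pool.Agent.Helper82.TM.FR
import Pool.Agent.Helper26.TM.ITK
import Pool.Agent.Helper84.TM.NU

/-!
Plan W (MP_c75db0), Taylor machine: THE DISPATCHER OF THE INVARIANCE IN FRAMES, with a scale, for
any machine `Mch`. `G3`, `G4`: tests of two forms (law `GeL`) in depth 3 and 4.
-/

set_option autoImplicit false
noncomputable section
namespace Pool.Agent.Helper91.TMK.ITF

open Matrix
open Pool.Agent.Helper90.C75 (Vt)
open Pool.Agent.Helper90.KMO (UU UU_pos UUc_ne cz zv zv_p andB_t)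
open Pool.Agent.Helper86.C75 (Z)
open Pool.Agent.Helper86.CX (Cx andB)
open Pool.Agent.Helper86.CT (N3 Alg Mo KM mk cst addM subM mulM conjM invM invOK nx)
open Pool.Agent.Helper17.K9 (V9)
open Pool.Agent.Helper62.TVM (V3m C9)
open Pool.Agent.Helper62.LBM (RH rhM rhOK)
open Pool.Agent.Helper51.FR (LE LM trK inc_hat RTK)
open Pool.Agent.Helper26.XM (oneM sDm_even)
open Pool.Agent.Helper26.XH (FH)
open Pool.Agent.Helper26.IT (RL RL_K even_of condB Pd_k upK)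
open Pool.Agent.Helper26.SF (Sf sfOK sfM sfR sf_pos)
open Pool.Agent.Helper91.BX (upM upW upV tu)
open Pool.Agent.Helper82.TST (H6 jFC Fr frA frB frK frN frR frS dtC nzC)
open Pool.Agent.Helper82.FRD (frOK raM cbM gaM n0M n1M nrM naM nbM ntM jr ouR IN_fr)
open Pool.Agent.Helper91.TMK.TST
open Pool.Agent.Helper91.TMK.SW
open Pool.Agent.Helper91.TMK.IT
open Pool.Agent.Helper6.MONO (V3)
open Pool.Agent.Helper6.MONO.W2 (Mt NZ IN rfJ rM rn nW nWd ns nsd Sy sDm phi Prt RPar sati Pd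
  cs sc brJ ep)
open Pool.Agent.Helper21.SW (Mu cK)

variable {α κ γ : Type}

/-! ### the kernel side -/

/-- a test of two forms with a constant hermitian matrix -/
abbrev GT (α : Type) : Type := Nat → Nat → H6 → KM α → KM α → Bool

/-- tests in depth 3 and 4, the forms in the frames in depth 3 -/
def f3V (A : Alg α) (G3 : GT α) (f : Fr) (m : Mu) (R : Mo α) (Kf Kg : KM α) (V : V9 α) : Bool :=
  incV A G3 f m.l m.m R V Kg Kf
def f4V (A : Alg α) (G4 : GT (N3 α)) (f : Fr) (m : Mu) (R : Mo α) (Kf Kg : KM α)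
    (V : V9 (N3 α)) : Bool :=
  incV (nx A) G4 f m.l m.m (upM R) V (upK Kg) (upK Kf)
/-- a run in depth 3, in depth 4 -/
def f3N (A : Alg α) (f g : Fr) (F : FH α) (L : LM α) (r : Mo α) : V9 α :=
  nrM A r (naM A f g F.v L) (nbM A f g F.v L) (gaM A f g)
def f4N (A : Alg α) (f g : Fr) (F : FH α) (L : LM α) (r : Mo (N3 α)) : V9 (N3 α) :=
  nrM (nx A) r (upV (naM A f g F.v L)) (upV (nbM A f g F.v L)) (upV (gaM A f g))

def fiE (A : Alg α) (G3 : GT α) (f g : Fr) (F : FH α) (L : LM α) (m : Mu) (R : Mo α)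
    (Kf Kg : KM α) (n : Nat) : Bool :=
  Nat.rec (motive := fun _ => Bool) false
    (fun j _ => andB (exOK A L j)
      (f3V A G3 f m R Kf Kg (f3N A f g F L (rhM A L.w (invM A L.w) j).r))) n
def fiD (A : Alg α) (G3 : GT α) (G4 : GT (N3 α)) (f g : Fr) (F : FH α) (L : LM α) (E : LE)
    (C : Mo α) (c : Nat) (m : Mu) (R : Mo α) (Kf Kg : KM α) (k n : Nat) : Bool :=
  cond (Nat.beq k (nat_lit 0)) (andB (Nat.beq (Nat.mod (Nat.div c (nat_lit 2)) (nat_lit 2)) (nat_lit 0))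
      (f3V A G3 f m R Kf Kg (ntM A f g F.v ⟨L.P, conjM A L.P, oneM A⟩)))
    (cond (Nat.beq k (nat_lit 1)) (fiE A G3 f g F L m R Kf Kg n)
      (cond (Nat.beq k (nat_lit 2)) (f4V A G4 f m R Kf Kg (f4N A f g F L (roM A E C n)))
        (cond (Nat.beq k (nat_lit 3)) (f4V A G4 f m R Kf Kg (f4N A f g F L (roM A E C n)))
          (cond (Nat.beq k (nat_lit 4)) true (Nat.beq k (nat_lit 5))))))
/-- **ONE INVARIANCE ITEM IN FRAMES**: `f` frame of the source form `k1`, `g` of the target `kt` -/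
def itJ (A : Alg α) (qd : Nat → Cx → Cx → Cx → α) (G3 : GT α) (G4 : GT (N3 α)) (T : TK α κ γ)
    (F : FH α) (L : LM α) (E : LE) (C : Mo α) (c P : Nat) (k1 kt : κ) (f g : Fr)
    (d : Mu × Sf) : Bool :=
  andB (frOK f g) (andB (sfOK d.2) (fiD A G3 G4 f g F L E C c d.1 (sfM A qd d.2)
    (frK A f (T.km k1)) (frK A g (T.km kt)) (Nat.mod P (nat_lit 8)) (Nat.div P (nat_lit 8))))

/-- AN INCLUSION `NZ (Ke) ⊆ NZ (Ki)` in the frame `f` -/
def inJ (A : Alg α) (qd : Nat → Cx → Cx → Cx → α) (G3 : GT α) (T : TK α κ γ) (ki ke : κ) (f : Fr)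
    (d : Mu × Sf) : Bool :=
  andB (nzC (dtC f.c)) (andB (Nat.ble (nat_lit 1) f.s) (andB (sfOK d.2)
    (incG A G3 f d.1.l d.1.m (sfM A qd d.2) (frK A f (T.km ki)) (frK A f (T.km ke)))))

/-! ### the real side -/

section

variable {lf : Mch α} {A : Alg α} {t : ℕ → ℝ} {v : V3} {G3 : GT α} {G4 : GT (N3 α)}

theorem kU (hA : AOKn 2 3 lf A) {K : Mt} {M : KM α} (h : HK 3 lf t K M) (u : ℝ) :
    HK 4 (nM 3 lf) (tu 3 t u) K (upK M) :=
  ⟨TOK.up hA h.a u, TOK.up hA h.b u, TOK.up hA h.c u, TOK.up hA h.x u, TOK.up hA h.y u,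
    TOK.up hA h.w u, h.hm⟩

theorem a3n (hA : AOKn 2 3 lf A) : AOK 3 lf A := hA.toAOKc.mono (by norm_num)

theorem f3V_ok (hG : GeL 3 lf G3) (hA : AOKn 2 3 lf A) (hP : PT 3 t) (h2 : brJ 1 v v = 2)
    {K1 Kt M : Mt} {f g : Fr}
    (hfr : frOK f g = true) {Kf Kg : KM α} (hf : HK 3 lf t ((frR f)ᴴ * K1 * frR f) Kf)
    (hg : HK 3 lf t ((frR g)ᴴ * Kt * frR g) Kg) {r : ℝ} (h0 : 0 < r) {S : Mo α}
    (hS : TOK 3 lf t (r : ℂ) S) {V : V9 α}
    (hV : TV 3 lf t (frS g * (M * rfJ 1 v * frR f)) V) {m : Mu}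
    (h : f3V A G3 f m S Kf Kg V = true) : IN (cK v K1) (cK v Kt) v M :=
  IN_fr h2 fun u hu => incV_ok hG hP hfr (a3n hA) hV hg hf h0 hS h u hu

theorem f4V_ok (hG : GeL 4 (nM 3 lf) G4) (hA : AOKn 2 3 lf A) (h2 : brJ 1 v v = 2) {u : ℝ}
    (hP4 : PT 4 (tu 3 t u)) {K1 Kt M : Mt} {f g : Fr}
    (hfr : frOK f g = true) {Kf Kg : KM α} (hf : HK 3 lf t ((frR f)ᴴ * K1 * frR f) Kf)
    (hg : HK 3 lf t ((frR g)ᴴ * Kt * frR g) Kg) {r : ℝ} (h0 : 0 < r) {S : Mo α}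
    (hS : TOK 3 lf t (r : ℂ) S) {V : V9 (N3 α)}
    (hV : TV 4 (nM 3 lf) (tu 3 t u) (frS g * (M * rfJ 1 v * frR f)) V) {m : Mu}
    (h : f4V A G4 f m S Kf Kg V = true) : IN (cK v K1) (cK v Kt) v M :=
  IN_fr h2 fun y hy => incV_ok hG hP4 hfr (AOK_nx hA) hV (kU hA hg u) (kU hA hf u) h0
    (TOK.up hA hS u) h y hy

theorem TV_f3 (hA : AOKn 2 3 lf A) (hP : PT 3 t) (h2 : brJ 1 v v = 2) {F : FH α}
    (hv : TW 3 lf t v F.v) {φ : ℝ} {h : Sy} {L : LM α} (hs : TW 3 lf t (ns φ v h.1 h.2) L.s)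
    (hw : TOK 3 lf t ((nW φ v h : ℝ) : ℂ) L.w) (f g : Fr) {ρ : ℝ} {r : Mo α}
    (hr : TOK 3 lf t ((ρ : ℝ) : ℂ) r) :
    TV 3 lf t (frS g * (rM φ v h ρ * rfJ 1 v * frR f)) (f3N A f g F L r) :=
  TV_run (a3n hA) hP h2 (TV_na (a3n hA) hP hv hs hw f g) (TV_nb (a3n hA) hP hv hs hw f g)
    (TV_ga' (a3n hA) hP f g) hr

theorem TV_f4 (hA : AOKn 2 3 lf A) (hP : PT 3 t) (h2 : brJ 1 v v = 2) {u : ℝ}
    (hP4 : PT 4 (tu 3 t u)) {F : FH α}
    (hv : TW 3 lf t v F.v) {φ : ℝ} {h : Sy} {L : LM α} (hs : TW 3 lf t (ns φ v h.1 h.2) L.s)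
    (hw : TOK 3 lf t ((nW φ v h : ℝ) : ℂ) L.w) (f g : Fr) {ρ : ℝ} {r : Mo (N3 α)}
    (hr : TOK 4 (nM 3 lf) (tu 3 t u) ((ρ : ℝ) : ℂ) r) :
    TV 4 (nM 3 lf) (tu 3 t u) (frS g * (rM φ v h ρ * rfJ 1 v * frR f)) (f4N A f g F L r) :=
  TV_run (AOK_nx hA) hP4 h2 (TV.up hA (TV_na (a3n hA) hP hv hs hw f g) u)
    (TV.up hA (TV_nb (a3n hA) hP hv hs hw f g) u) (TV.up hA (TV_ga' (a3n hA) hP f g) u) hr

theorem TOK_one' (hA : AOK 3 lf A) (hP : PT 3 t) : TOK 3 lf t 1 (oneM A) :=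
  TOK.cst' hA hP (by unfold UU; norm_num)

theorem TV_rt3 (hA : AOKn 2 3 lf A) (hP : PT 3 t) {F : FH α} (hv : TW 3 lf t v F.v) {φ : ℝ}
    {h : Sy} {L : LM α} (hp : TOK 3 lf t ((if h.1 then star (ep φ) else ep φ) ^ h.2) L.P)
    (hg : h.2 % 2 = 0) (f g : Fr) :
    TV 3 lf t (frS g * (sDm φ h.1 h.2 * rfJ 1 v * frR f))
      (ntM A f g F.v ⟨L.P, conjM A L.P, oneM A⟩) := by
  have hw : TW 3 lf t ![(if h.1 then star (ep φ) else ep φ) ^ h.2,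
      (if h.1 then ep φ else star (ep φ)) ^ h.2, 1]
      (⟨L.P, conjM A L.P, oneM A⟩ : V3m α) := by
    refine ⟨tc hp (by simp), tc (hp.conj (a3n hA)) ?_, tc (TOK_one' (a3n hA) hP) (by simp)⟩
    show star _ = _
    rw [star_pow]
    cases h.1 <;> simp
  have e : Matrix.diagonal ![(if h.1 then star (ep φ) else ep φ) ^ h.2,
      (if h.1 then ep φ else star (ep φ)) ^ h.2, 1] = sDm φ h.1 h.2 := by
    rw [sDm_even φ h.1 h.2 hg]
    ext i j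
    fin_cases i <;> fin_cases j <;> simp [Matrix.diagonal]
  have k := TV_nt (a3n hA) hP hv hw f g
  rw [e] at k
  exact k

end

end Pool.Agent.Helper91.TMK.ITF
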