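import Pool.Agent.Helper82.TM.HK

/-!
Plan W (MP_c75db0), Taylor machine: THE TESTS OF INVARIANCE IN FRAMES, with a scale. The kernel
definitions of the frames are those of `Helper82.TST` and `Helper82.FRD`.
-/

set_option autoImplicit false
noncomputable section
namespace Pool.Agent.Helper91.TMK.TST

open Matrix
open Pool.Agent.Helper90.C75 (Vt)
open Pool.Agent.Helper90.KMO (UU UU_pos UUc_ne norm_UU zv zv_sub zv_mul zv_add zv_p cz andB_t)
open Pool.Agent.Helper86.C75 (Z H3)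
open Pool.Agent.Helper86.CX (Cx andB)
open Pool.Agent.Helper86.CT (N3 Alg Mo KM mk addM subM mulM conjM cst)
open Pool.Agent.Helper17.K9 (V9)
open Pool.Agent.Helper62.TVM (cstC zeM negM hfM re2M nsqM dot3 V3m C3 C9 cstW cstV addW subW negW
  smW cjW jW hdW dtW addV subV negV smV hfV hdV mulV ctV trV ouV oV dlV drV dgV adV sbV mvV)
open Pool.Agent.Helper82.TST (smK cg9 hr_cong hq jFC jFC_hq adC C9M C9M_ad dtC nzC nzC_ok smC
  C9M_sm Fr frA frB frK frN frR frS hr_smulv H6)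
open Pool.Agent.Helper82.FRD (frOK raM cbM gaM n0M n1M nrM naM nbM ntM jr ouR run_fr rot_fr IN_fr)
open Pool.Agent.Helper26.SF (hr_smulM)
open Pool.Agent.Helper26.XM (oneM sDm_even)
open Pool.Agent.Helper51.FR (LM trK inc_hat)
open Pool.Agent.Helper6.MONO (V3)
open Pool.Agent.Helper6.MONO.W2 (Mt J1 NZ IN rfJ rM nW nWd ns nsd Sy sDm phi brJ hr hv ep nq ev)

section

variable {α : Type}

/-- THE TEST: `V` model of `N'`, `Kg`, `Kf` models of the forms in the frames, scale `R` -/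
def incV (A : Alg α) (G : Nat → Nat → H6 → KM α → KM α → Bool) (f : Fr) (l : Nat) (m : Z)
    (R : Mo α) (V : V9 α) (Kg Kf : KM α) : Bool :=
  G (nat_lit 0) l (jFC m f.c) (smK A R (cg9 A V Kg)) Kf
/-- an inclusion in a frame -/
def incG (A : Alg α) (G : Nat → Nat → H6 → KM α → KM α → Bool) (f : Fr) (l : Nat) (m : Z)
    (R : Mo α) (Ki Ke : KM α) : Bool :=
  G (nat_lit 0) l (jFC m f.c) (smK A R Ki) Ke

variable {D : ℕ} {lf : Mch α} {A : Alg α} {t : ℕ → ℝ}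

theorem TV_frA (hA : AOK D lf A) (hP : PT D t) (f : Fr) : TV D lf t (frR f) (frA A f) := by
  refine TV_cst hA hP fun i j => ?_
  have e : (UU : ℂ) * frR f i j = cz ((smC f.s f.c).get i j) := by
    have h1 : (UU : ℂ) * frR f i j = (C9M (smC f.s f.c)) i j := by
      rw [C9M_sm]
      show (UU : ℂ) * ((f.s : ℂ) / UU * C9M f.c i j) = (f.s : ℂ) * C9M f.c i j
      rw [← mul_assoc, mul_div_cancel₀ _ UUc_ne]
    rw [h1]
    fin_cases i <;> fin_cases j <;> rfl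
  rw [e, sub_self, norm_zero]
  exact Nat.cast_nonneg _

theorem TV_frB (hA : AOK D lf A) (hP : PT D t) (f : Fr) : TV D lf t (frS f) (frB A f) := by
  refine TV_cst hA hP fun i j => ?_
  have e : (UU : ℂ) * frS f i j = cz ((smC f.z (adC f.c)).get i j) := by
    have h1 : (UU : ℂ) * frS f i j = (C9M (smC f.z (adC f.c))) i j := by
      rw [C9M_sm]
      show (UU : ℂ) * ((f.z : ℂ) / UU * C9M (adC f.c) i j) = (f.z : ℂ) * C9M (adC f.c) i j
      rw [← mul_assoc, mul_div_cancel₀ _ UUc_ne]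
    rw [h1]
    fin_cases i <;> fin_cases j <;> rfl
  rw [e, sub_self, norm_zero]
  exact Nat.cast_nonneg _

/-- **SOUNDNESS OF THE FRAMED TEST** -/
theorem incV_ok {G : Nat → Nat → H6 → KM α → KM α → Bool} (hG : GeL D lf G) (hP : PT D t) {Kt K1 N : Mt} {f g : Fr} (hfr : frOK f g = true)
    (hA : AOK D lf A) {V : V9 α} {Kg Kf : KM α} (hV : TV D lf t (frS g * (N * frR f)) V)
    (hg : HK D lf t ((frR g)ᴴ * Kt * frR g) Kg) (hf : HK D lf t ((frR f)ᴴ * K1 * frR f) Kf)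
    {r : ℝ} (h0 : 0 < r) {R : Mo α} (hR : TOK D lf t (r : ℂ) R)
    {l : ℕ} {m : Z} (h : incV A G f l m R V Kg Kf = true) (u : V3) (hu : u ∈ NZ K1) :
    0 ≤ hr Kt (N.mulVec u) := by
  obtain ⟨b1, hfr⟩ := andB_t hfr
  obtain ⟨b2, hfr⟩ := andB_t hfr
  obtain ⟨b3, hfr⟩ := andB_t hfr
  obtain ⟨b4, b5⟩ := andB_t hfr
  have df := nzC_ok b1
  have dg := nzC_ok b2
  have sf : (f.s : ℂ) ≠ 0 := by
    have : 1 ≤ f.s := Nat.le_of_ble_eq_true b3
    exact_mod_cast (by omega : f.s ≠ 0)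
  have sg : (g.s : ℂ) ≠ 0 := by
    have : 1 ≤ g.s := Nat.le_of_ble_eq_true b4
    exact_mod_cast (by omega : g.s ≠ 0)
  have zg : (g.z : ℂ) ≠ 0 := by
    have : 1 ≤ g.z := Nat.le_of_ble_eq_true b5
    exact_mod_cast (by omega : g.z ≠ 0)
  have hF := (hg.g9 hA hP hV).sm hA hP hR
  set ζ : V3 := ((UU : ℂ) / ((f.s : ℂ) * cz (dtC f.c))) • (C9M (adC f.c)).mulVec u with hζ
  have eu : (frR f).mulVec ζ = u := by
    rw [hζ, Matrix.mulVec_smul, frR, Matrix.smul_mulVec, Matrix.mulVec_mulVec, C9M_ad,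
      Matrix.smul_mulVec, Matrix.one_mulVec, smul_smul, smul_smul]
    have e : (UU : ℂ) / ((f.s : ℂ) * cz (dtC f.c)) * ((f.s : ℂ) / UU) * cz (dtC f.c) = 1 := by
      have := UUc_ne
      field_simp
    rw [e, one_smul]
  have h3 := hG hP hF hf h ζ
  rw [jFC_hq, hr_smulM, hr_cong, hr_cong, hr_cong, eu] at h3
  have eJ : hr J1 ((C9M f.c).mulVec ζ) = 0 := by
    have e1 : (C9M f.c).mulVec ζ = ((UU : ℂ) / f.s) • u := by
      have e2 : (frR f).mulVec ζ = ((f.s : ℂ) / UU) • (C9M f.c).mulVec ζ := by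
        rw [frR, Matrix.smul_mulVec]
      rw [eu] at e2
      rw [e2, smul_smul]
      have e3 : (UU : ℂ) / f.s * ((f.s : ℂ) / UU) = 1 := by
        have := UUc_ne
        field_simp
      rw [e3, one_smul]
    rw [e1, hr_smulv, hu.2, mul_zero]
  have e4 : (frR g).mulVec ((frS g * (N * frR f)).mulVec ζ) =
      ((g.s : ℂ) / UU * ((g.z : ℂ) / UU) * cz (dtC g.c)) • N.mulVec u := by
    rw [← Matrix.mulVec_mulVec, ← Matrix.mulVec_mulVec, eu, frR, frS, Matrix.smul_mulVec,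
      Matrix.smul_mulVec, Matrix.mulVec_smul, Matrix.mulVec_mulVec, C9M_ad, Matrix.smul_mulVec,
      Matrix.one_mulVec, smul_smul, smul_smul]
  rw [e4, hr_smulv, eJ, mul_zero, mul_zero] at h3
  have h00 : ((nat_lit 0 : ℕ) : ℝ) = 0 := Nat.cast_zero
  rw [h00, zero_div, zero_mul] at h3
  have h5 := mul_nonneg (Nat.cast_nonneg (α := ℝ) l) hu.1
  have hp : 0 < ‖(g.s : ℂ) / UU * ((g.z : ℂ) / UU) * cz (dtC g.c)‖ ^ 2 := by
    have h6 : (g.s : ℂ) / UU * ((g.z : ℂ) / UU) * cz (dtC g.c) ≠ 0 :=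
      mul_ne_zero (mul_ne_zero (div_ne_zero sg UUc_ne) (div_ne_zero zg UUc_ne)) dg
    have := norm_pos_iff.2 h6
    positivity
  have h7 : 0 ≤ r * (‖(g.s : ℂ) / UU * ((g.z : ℂ) / UU) * cz (dtC g.c)‖ ^ 2 *
      hr Kt (N.mulVec u)) := by
    linarith
  exact nonneg_of_mul_nonneg_right (nonneg_of_mul_nonneg_right h7 h0) hp

/-- inclusions in a frame -/
theorem incK_ok {G : Nat → Nat → H6 → KM α → KM α → Bool} (hG : GeL D lf G) (hP : PT D t) {Ki Ke : Mt} {f : Fr} (b1 : nzC (dtC f.c) = true) (b3 : 1 ≤ f.s)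
    (hA : AOK D lf A) {Mi Me : KM α} (hi : HK D lf t ((frR f)ᴴ * Ki * frR f) Mi)
    (he : HK D lf t ((frR f)ᴴ * Ke * frR f) Me) {r : ℝ} (h0 : 0 < r) {R : Mo α}
    (hR : TOK D lf t (r : ℂ) R) {l : ℕ} {m : Z}
    (h : incG A G f l m R Mi Me = true) (u : V3) (hu : u ∈ NZ Ke) :
    0 ≤ hr Ki u := by
  have df := nzC_ok b1
  have sf : (f.s : ℂ) ≠ 0 := by exact_mod_cast (by omega : f.s ≠ 0)
  have hF := hi.sm hA hP hR
  set ζ : V3 := ((UU : ℂ) / ((f.s : ℂ) * cz (dtC f.c))) • (C9M (adC f.c)).mulVec u with hζ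
  have eu : (frR f).mulVec ζ = u := by
    rw [hζ, Matrix.mulVec_smul, frR, Matrix.smul_mulVec, Matrix.mulVec_mulVec, C9M_ad,
      Matrix.smul_mulVec, Matrix.one_mulVec, smul_smul, smul_smul]
    have e : (UU : ℂ) / ((f.s : ℂ) * cz (dtC f.c)) * ((f.s : ℂ) / UU) * cz (dtC f.c) = 1 := by
      have := UUc_ne
      field_simp
    rw [e, one_smul]
  have h3 := hG hP hF he h ζ
  rw [jFC_hq, hr_smulM, hr_cong, hr_cong, eu] at h3
  have eJ : hr J1 ((C9M f.c).mulVec ζ) = 0 := by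
    have e1 : (C9M f.c).mulVec ζ = ((UU : ℂ) / f.s) • u := by
      have e2 : (frR f).mulVec ζ = ((f.s : ℂ) / UU) • (C9M f.c).mulVec ζ := by
        rw [frR, Matrix.smul_mulVec]
      rw [eu] at e2
      rw [e2, smul_smul]
      have e3 : (UU : ℂ) / f.s * ((f.s : ℂ) / UU) = 1 := by
        have := UUc_ne
        field_simp
      rw [e3, one_smul]
    rw [e1, hr_smulv, hu.2, mul_zero]
  rw [eJ, mul_zero, mul_zero] at h3
  have h00 : ((nat_lit 0 : ℕ) : ℝ) = 0 := Nat.cast_zero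
  rw [h00, zero_div, zero_mul] at h3
  have h5 := mul_nonneg (Nat.cast_nonneg (α := ℝ) l) hu.1
  have h7 : 0 ≤ r * hr Ki u := by linarith
  exact nonneg_of_mul_nonneg_right h7 h0

/-! #### models -/

variable {x y v : V3} {X Y Vm : V3m α}

theorem TW_ra (hA : AOK D lf A) (hP : PT D t) (f : Fr) (hy : TW D lf t y Y) :
    TW D lf t ((frR f)ᵀ.mulVec (jr y)) (raM A f Y) :=
  (TV_frA hA hP f).tr.mv hA hP (hy.jw hA hP)
theorem TW_cb (hA : AOK D lf A) (hP : PT D t) (g : Fr) (hx : TW D lf t x X) :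
    TW D lf t ((frS g).mulVec x) (cbM A g X) := (TV_frB hA hP g).mv hA hP hx
theorem TV_ga' (hA : AOK D lf A) (hP : PT D t) (f g : Fr) :
    TV D lf t (frS g * frR f) (gaM A f g) := (TV_frB hA hP g).mul hA hP (TV_frA hA hP f)
theorem TV_ou' (hA : AOK D lf A) (hP : PT D t) (hx : TW D lf t x X) (hy : TW D lf t y Y) :
    TV D lf t (ouR x y) (ouV A X Y) := hx.ou hA hP hy

/-- a general matrix in the frames -/
theorem TV_frN (hA : AOK D lf A) (hP : PT D t) {N : Mt} {V : V9 α} (hN : TV D lf t N V)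
    (f g : Fr) : TV D lf t (frS g * (N * frR f)) (frN A f g V) :=
  (TV_frB hA hP g).mul hA hP (hN.mul hA hP (TV_frA hA hP f))

/-- a run, one depth -/
theorem TV_run (hA : AOK D lf A) (hP : PT D t) {φ : ℝ} {h : Sy} {ρ : ℝ} (h2 : brJ 1 v v = 2)
    {B Am : Mt} {N0 N1 G : V9 α} {r : Mo α}
    (k0 : TV D lf t (ouR (B.mulVec (ns φ v h.1 h.2)) (Amᵀ.mulVec (jr (ns φ v h.1 h.2))) +
        ((nW φ v h : ℝ) : ℂ) • (ouR (B.mulVec v - B.mulVec (ns φ v h.1 h.2)) (Amᵀ.mulVec (jr v)) -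
          B * Am)) N0)
    (k1 : TV D lf t ((ouR (B.mulVec (ns φ v h.1 h.2)) (Amᵀ.mulVec (jr v)) -
          ouR (B.mulVec v) (Amᵀ.mulVec (jr (ns φ v h.1 h.2)))) +
            ((nW φ v h : ℝ) : ℂ) • (B * Am)) N1)
    (kG : TV D lf t (B * Am) G) (kr : TOK D lf t ((ρ : ℝ) : ℂ) r) :
    TV D lf t (B * (rM φ v h ρ * rfJ 1 v * Am)) (nrM A r N0 N1 G) :=
  (k0.add hA ((k1.smul hA hP kr).sub hA (kG.smul hA hP (kr.mul hA hP kr)))).congr
    (run_fr h2 φ h ρ B Am).symm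

theorem TV_na (hA : AOK D lf A) (hP : PT D t) (hv : TW D lf t v Vm) {φ : ℝ} {h : Sy}
    {L : LM α} (hs : TW D lf t (ns φ v h.1 h.2) L.s)
    (hw : TOK D lf t ((nW φ v h : ℝ) : ℂ) L.w) (f g : Fr) :
    TV D lf t (ouR ((frS g).mulVec (ns φ v h.1 h.2))
        ((frR f)ᵀ.mulVec (jr (ns φ v h.1 h.2))) +
        ((nW φ v h : ℝ) : ℂ) • (ouR ((frS g).mulVec v -
          (frS g).mulVec (ns φ v h.1 h.2)) ((frR f)ᵀ.mulVec (jr v)) - frS g * frR f))
      (naM A f g Vm L) :=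
  (TV_ou' hA hP (TW_cb hA hP g hs) (TW_ra hA hP f hs)).add hA
    (((TV_ou' hA hP ((TW_cb hA hP g hv).sub hA (TW_cb hA hP g hs)) (TW_ra hA hP f hv)).sub hA
      (TV_ga' hA hP f g)).smul hA hP hw)

theorem TV_nb (hA : AOK D lf A) (hP : PT D t) (hv : TW D lf t v Vm) {φ : ℝ} {h : Sy}
    {L : LM α} (hs : TW D lf t (ns φ v h.1 h.2) L.s)
    (hw : TOK D lf t ((nW φ v h : ℝ) : ℂ) L.w) (f g : Fr) :
    TV D lf t ((ouR ((frS g).mulVec (ns φ v h.1 h.2)) ((frR f)ᵀ.mulVec (jr v)) -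
          ouR ((frS g).mulVec v) ((frR f)ᵀ.mulVec (jr (ns φ v h.1 h.2)))) +
            ((nW φ v h : ℝ) : ℂ) • (frS g * frR f)) (nbM A f g Vm L) :=
  ((TV_ou' hA hP (TW_cb hA hP g hs) (TW_ra hA hP f hv)).sub hA
    (TV_ou' hA hP (TW_cb hA hP g hv) (TW_ra hA hP f hs))).add hA
    ((TV_ga' hA hP f g).smul hA hP hw)

/-- a rotation -/
theorem TV_nt (hA : AOK D lf A) (hP : PT D t) (hv : TW D lf t v Vm) {d : V3} {Dm : V3m α}
    (hd : TW D lf t d Dm) (f g : Fr) :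
    TV D lf t (frS g * (Matrix.diagonal d * rfJ 1 v * frR f)) (ntM A f g Vm Dm) :=
  (((TV_frB hA hP g).mul hA hP ((TV_frA hA hP f).dl hA hP hd)).sub hA
    (TV_ou' hA hP (TW_cb hA hP g (hd.hd hA hP hv)) (TW_ra hA hP f hv))).congr
    (rot_fr v d _ _).symm

end

end Pool.Agent.Helper91.TMK.TST
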