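import Pool.Agent.Helper82.TM.ITJ
import Pool.Agent.Helper21.TM.M7A

/-!
Plan W (MP_c75db0), Taylor machine: the invariance items in frames of a cell (`IT.i` for the parts
with `P % 8 < 6`) and the inclusions of its forms, from everything at a point (`PtC`).
-/

set_option autoImplicit false
noncomputable section
namespace Pool.Agent.Helper91.TMK.ITF

open Matrix
open Pool.Agent.Helper90.KMO (UU UU_pos UUc_ne cz zv zv_p andB_t)
open Pool.Agent.Helper86.C75 (Z)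
open Pool.Agent.Helper86.CX (Cx andB)
open Pool.Agent.Helper86.CT (N3 Alg Mo KM mk cst addM subM mulM conjM nx A3 A4)
open Pool.Agent.Helper51.FR (LE chM csM RTK)
open Pool.Agent.Helper26.IT (RL_K)
open Pool.Agent.Helper26.SF (Sf)
open Pool.Agent.Helper82.TST (Lc3 Lc4 Lc3_ok Lc4_ok Fr)
open Pool.Agent.Helper12.NKT (CovD Fm dfF)
open Pool.Agent.Helper91.TMK.FR (LOK)
open Pool.Agent.Helper91.TMK.TST
open Pool.Agent.Helper91.TMK.SW
open Pool.Agent.Helper91.TMK.IT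
open Pool.Agent.Helper6.MONO (V3 Kp)
open Pool.Agent.Helper6.MONO.W2 (Mt NZ nW ns Sy phi Prt RPar sati Pd cs brJ ep)
open Pool.Agent.Helper6.MONO.W2.TY (sc_cs)
open Pool.Agent.Helper21.SW (Mu cK T3 T4 lf3 lf4)

section

variable {α κ γ : Type} {lf : Mch α} {lq : Mch (N3 α)} {M : Mn α} {t : ℕ → ℝ}
  {KV : κ → (ℕ → ℝ) → Mt} {T : TK α κ γ} {C : Cel κ} {q r : ℕ} {x : ℝ}

/-- the model of `ch` -/
theorem ch_K' {A : Alg α} (hA : AOK 3 lf A) (hP : PT 3 t) {tb : ℕ → LE} {w : Sy → ℝ}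
    {bc : ℕ → ℕ → Prop} {c : ℕ} {W : Mo α} (hw : TOK 3 lf t ((w (cs c) : ℝ) : ℂ) W) :
    TOK 3 lf t (((RTK tb w bc).ch (cs c) : ℝ) : ℂ) (chK A c (tb c) W) := by
  have e0 : Pool.Agent.Helper6.MONO.W2.TY.sc (cs c) = c := sc_cs c
  have e : (RTK tb w bc).ch (cs c) = if c / 2 = 1 then
      ((tb c).e.al / UU : ℝ) * w (cs c) - (tb c).e.be / UU else
      ((tb c).e.al / UU : ℝ) - (tb c).e.be / UU * w (cs c) := by
    show (if (cs c).2 = 1 then ((tb (Pool.Agent.Helper6.MONO.W2.TY.sc (cs c))).e.al / UU : ℝ) *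
        w (cs c) - (tb (Pool.Agent.Helper6.MONO.W2.TY.sc (cs c))).e.be / UU
      else ((tb (Pool.Agent.Helper6.MONO.W2.TY.sc (cs c))).e.al / UU : ℝ) -
        (tb (Pool.Agent.Helper6.MONO.W2.TY.sc (cs c))).e.be / UU * w (cs c)) = _
    rw [e0]
    rfl
  rw [e]
  unfold chK
  cases hb : Nat.beq (Nat.div c (nat_lit 2)) (nat_lit 1) with
  | true =>
    have h1 : c / 2 = 1 := Nat.eq_of_beq_eq_true hb
    rw [if_pos h1]
    refine tc (((Pool.Agent.Helper91.TMK.FR.cst_nat hA hP _).mul hA hP hw).sub hA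
      (Pool.Agent.Helper91.TMK.FR.cst_nat hA hP _)) ?_
    push_cast
    ring
  | false =>
    have h1 : ¬ c / 2 = 1 := fun h => by
      have : Nat.beq (Nat.div c 2) 1 = true := by
        rw [show Nat.div c 2 = 1 from h]
        rfl
      rw [this] at hb
      cases hb
    rw [if_neg h1]
    refine tc ((Pool.Agent.Helper91.TMK.FR.cst_nat hA hP _).sub hA
      ((Pool.Agent.Helper91.TMK.FR.cst_nat hA hP _).mul hA hP hw)) ?_
    push_cast
    ring

/-! ### kernel side -/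

/-- the tests of two forms of a machine, depth 3 and 4 -/
def g3 (M : Mn α) : GT α := geV M.V A3 Lc3
def g4 (M : Mn α) : GT (N3 α) := geV M.V4 A4 Lc4

/-- THE INVARIANCE ITEM `IT.i` (parts with `P % 8 < 6`): source form `i`, target form `f` -/
def iJ (M : Mn α) (T : TK α κ γ) (C : Cel κ) (c P i f : Nat) (d : Mu × Sf) : Bool :=
  itJ M.A M.qd (g3 M) (g4 M) T (C.H M) (C.L M c) (C.tb c) (chK M.A c (C.tb c) (C.L M c).w) c P
    (C.fo i) (C.fo f) (C.fq i) (C.fq f) d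

/-- AN INCLUSION: the region of the form `e` lies in the region of the form `i` -/
def nJ (M : Mn α) (T : TK α κ γ) (C : Cel κ) (i e : Nat) (d : Mu × Sf) : Bool :=
  inJ M.A M.qd (g3 M) T (C.fo i) (C.fo e) (C.fq e) d

theorem g3_ok (hM : MnL lf M) : GeL 3 lf (g3 M) :=
  geV_ok Pool.Agent.Helper21.SW.a3 hM.V Lc3_ok
theorem g4_ok (hM : MnL lf M) : GeL 4 (nM 3 lf) (g4 M) :=
  geV_ok Pool.Agent.Helper21.SW.a4 hM.V4 Lc4_ok

/-- **THE LAW OF THE INVARIANCE ITEMS** -/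
theorem iJ_ok (hM : MnL lf M) (hT : TKL lf lq KV T) (hC : PtC lf M C q r x t) {c P i f : ℕ}
    {d : Mu × Sf} (h : iJ M T C c P i f d = true) {bc : ℕ → ℕ → Prop} :
    sati (RTK C.tb (nW (phi C.D.p) (vX C q r x)) bc) (phi C.D.p) (vX C q r x) (cs c) (Pd P)
      (cK (vX C q r x) (KV (C.fo i) t)) (cK (vX C q r x) (KV (C.fo f) t)) := by
  have hL := hC.L (cs c)
  rw [Pool.Agent.Helper6.MONO.W2.sc_cs c] at hL
  exact itJ_ok hM.n (g3_ok hM) (g4_ok hM) hT hC.hP hC.two hM.qd hC.H.hv hL.s hL.w hL.P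
    (RL_K C.tb _ bc c) (ch_K' hM.a3 hC.hP hL.w) h

/-- **THE LAW OF THE INCLUSIONS** -/
theorem nJ_ok (hM : MnL lf M) (hT : TKL lf lq KV T) (hC : PtC lf M C q r x t) {i e : ℕ}
    {d : Mu × Sf} (h : nJ M T C i e d = true) :
    NZ (cK (vX C q r x) (KV (C.fo e) t)) ⊆ NZ (cK (vX C q r x) (KV (C.fo i) t)) :=
  inJ_ok hM.n (g3_ok hM) hT hC.hP hC.two hM.qd h

end

end Pool.Agent.Helper91.TMK.ITF
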