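import Pool.Agent.Helper21.TM.CVM
import Pool.Agent.Helper82.CW.FRD

/-!
Plan W (MP_c75db0), Taylor machine: hermitian matrices given by six models, the congruences, the
law of the test of two forms. The kernel definitions are those of `Helper82.TST` and `Helper82.FRD`.
-/

set_option autoImplicit false
noncomputable section
namespace Pool.Agent.Helper91.TMK.TST

open Matrix
open Pool.Agent.Helper90.C75 (Vt)
open Pool.Agent.Helper90.KMO (UU UU_pos UUc_ne norm_UU zv zv_sub zv_mul zv_add zv_p cz andB_t)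
open Pool.Agent.Helper86.C75 (Z H3)
open Pool.Agent.Helper86.CX (Cx andB)
open Pool.Agent.Helper86.CT (N3 Alg Mo KM mk addM subM mulM conjM cst)
open Pool.Agent.Helper17.K9 (V9)
open Pool.Agent.Helper62.TVM (cstC zeM negM hfM re2M nsqM dot3 V3m C3 C9 cstW cstV addW subW negW
  smW cjW jW hdW dtW addV subV negV smV hfV hdV mulV ctV trV ouV oV dlV drV dgV adV sbV mvV)
open Pool.Agent.Helper82.TST (kqW jsW smK upK hkM cg3 cg2 cgK rg3 rg2 rgK dgK kn1 cg9 llK cuW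
  Rk rfJ_Rk nR_Rk hv_cong hr_cong hm_cong hr_neg_vec jv kap_real Rk_apply cg_apply cgmat ll hr_ll
  rfJ_vec cong_cong hq uv uv_null H6 jFC jFC_hq adC C9M C9M_ad dtC nzC nzC_ok smC C9M_sm Fr frA frB frK frN
  frR frS hr_smulv)
open Pool.Agent.Helper6.MONO
open Pool.Agent.Helper6.MONO.W2

variable {α : Type} {D : ℕ} {lf : Mch α} {A : Alg α} {t : ℕ → ℝ}

/-! ### the law of the test of two forms -/

/-- THE LAW: `G e l H F K` shows `2 ^ 16 F ≥ l K + 2 ^ (-48) H + e 2 ^ (-48)` -/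
def GeL (D : ℕ) (lf : Mch α) (G : Nat → Nat → H6 → KM α → KM α → Bool) : Prop :=
  ∀ {t : ℕ → ℝ} {F K : Mt} {M N : KM α} {e l : ℕ} {H : H6}, PT D t → HK D lf t F M →
    HK D lf t K N → G e l H M N = true → ∀ u : V3,
    (e : ℝ) / UU * nq u + 1 / UU * hq (zv H.a) (zv H.b) (zv H.c) (cz H.x) (cz H.y) (cz H.w) u +
      l * hr K u ≤ 65536 * hr F u

/-- the constant form `m J`, the constant form `0` -/
def jH (m : Z) : H6 := ⟨m, m, Z.opp m, ⟨Z.p (nat_lit 0), Z.p (nat_lit 0)⟩,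
  ⟨Z.p (nat_lit 0), Z.p (nat_lit 0)⟩, ⟨Z.p (nat_lit 0), Z.p (nat_lit 0)⟩⟩

theorem jH_hq (m : Z) (u : V3) : hq (zv (jH m).a) (zv (jH m).b) (zv (jH m).c) (cz (jH m).x)
    (cz (jH m).y) (cz (jH m).w) u = (zv m : ℝ) * hr J1 u := by
  have eJ : hr J1 u = ‖u 0‖ ^ 2 + ‖u 1‖ ^ 2 - ‖u 2‖ ^ 2 := by
    have hs : ∀ z : ℂ, star z = (starRingEnd ℂ) z := fun _ => rfl
    rw [Pool.Agent.Helper82.TST.sq_n, Pool.Agent.Helper82.TST.sq_n, Pool.Agent.Helper82.TST.sq_n]
    unfold hr hv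
    simp only [J1, Fin.sum_univ_three, Matrix.of_apply, Matrix.cons_val_zero,
      Matrix.cons_val_one, Matrix.cons_val, Matrix.cons_val', hs, Complex.add_re, Complex.mul_re,
      Complex.mul_im, Complex.conj_re, Complex.conj_im, Complex.one_re, Complex.one_im,
      Complex.zero_re, Complex.zero_im, Complex.neg_re, Complex.neg_im]
    ring
  have e0 : cz ⟨Z.p (nat_lit 0), Z.p (nat_lit 0)⟩ = 0 := by
    apply Complex.ext <;> simp [cz, zv_p]
  have eo : (zv (Z.opp m) : ℝ) = -zv m := by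
    rw [Pool.Agent.Helper90.KMO.zv_opp]
    push_cast
    rfl
  show hq (zv m) (zv m) (zv (Z.opp m)) (cz ⟨Z.p (nat_lit 0), Z.p (nat_lit 0)⟩)
    (cz ⟨Z.p (nat_lit 0), Z.p (nat_lit 0)⟩) (cz ⟨Z.p (nat_lit 0), Z.p (nat_lit 0)⟩) u = _
  rw [e0, eo, eJ]
  unfold hq
  simp only [zero_mul, mul_zero, Complex.zero_re]
  ring

section

variable {G : Nat → Nat → H6 → KM α → KM α → Bool}

/-- two forms and `m J` -/
theorem HK.ge (hG : GeL D lf G) (hP : PT D t) {F K : Mt} {M N : KM α} (hF : HK D lf t F M)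
    (hK : HK D lf t K N) {e l : ℕ} {m : Z} (ht : G e l (jH m) M N = true) (u : V3) :
    (e : ℝ) / UU * nq u + (zv m : ℝ) / UU * hr J1 u + l * hr K u ≤ 65536 * hr F u := by
  have h := hG hP hF hK ht u
  rw [jH_hq] at h
  have e1 : 1 / UU * ((zv m : ℝ) * hr J1 u) = (zv m : ℝ) / UU * hr J1 u := by ring
  rw [e1] at h
  exact h

/-- THE INCLUSION OF REGIONS -/
theorem HK.incl (hG : GeL D lf G) (hP : PT D t) {F K : Mt} {M N : KM α} (hF : HK D lf t F M)
    (hK : HK D lf t K N) {l : ℕ} {m : Z} (ht : G (nat_lit 0) l (jH m) M N = true)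
    (u : V3) (hu : u ∈ NZ K) : 0 ≤ hr F u := by
  have h := HK.ge hG hP hF hK ht u
  have h0 : ((nat_lit 0 : ℕ) : ℝ) = 0 := Nat.cast_zero
  rw [h0, hu.2, zero_div, zero_mul, mul_zero] at h
  have h1 := mul_nonneg (Nat.cast_nonneg (α := ℝ) l) hu.1
  linarith

/-- positivity -/
theorem HK.pos (hG : GeL D lf G) (hP : PT D t) {F : Mt} {M : KM α} (hF : HK D lf t F M)
    (ht : G (nat_lit 0) (nat_lit 0) (jH (Z.p (nat_lit 0))) M M = true) (u : V3) :
    0 ≤ hr F u := by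
  have h := HK.ge hG hP hF hF ht u
  have h0 : ((nat_lit 0 : ℕ) : ℝ) = 0 := Nat.cast_zero
  have h1 : (zv (Z.p (nat_lit 0)) : ℝ) = 0 := by
    rw [zv_p]
    simp
  rw [h0, h1, zero_div, zero_mul, zero_mul] at h
  linarith

end

/-! ### the law after a conversion to `KerT` -/

section

variable {τ : Type} {lt : τ → Vt D → ℂ} {B : Alg τ} {V : Cvt α τ}

/-- the leaf test after the conversion -/
def geV {α τ : Type} (V : Cvt α τ) (B : Alg τ) (L : Pool.Agent.Helper82.TST.Lc τ) (e l : Nat) (H : H6)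
    (F K : KM α) : Bool :=
  andB (okK V F) (andB (okK V K)
    (Pool.Agent.Helper82.TST.geC L e l H (cvK V B F) (cvK V B K)))

theorem geV_ok (hB : Pool.Agent.Helper90.KMT.AOK D lt B) (hV : CvtL D lf lt V)
    {L : Pool.Agent.Helper82.TST.Lc τ} (hL : Pool.Agent.Helper82.TST.LcOK D lt L) :
    GeL D lf (geV V B L) := by
  intro t F K M N e l H hP hF hK ht u
  obtain ⟨o1, h⟩ := andB_t ht
  obtain ⟨o2, h⟩ := andB_t h
  exact Pool.Agent.Helper82.TST.HK.geC hP (HK_cv hB hV hP hF o1) (HK_cv hB hV hP hK o2) hL h u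

end

/-! ### the operations -/

theorem HK.congr {K F : Mt} {M : KM α} (h : HK D lf t K M) (e : K = F) : HK D lf t F M := e ▸ h

theorem HK.sm (hA : AOK D lf A) (hP : PT D t) {K : Mt} {M : KM α} (h : HK D lf t K M) {s : ℝ}
    {S : Mo α} (hs : TOK D lf t (s : ℂ) S) : HK D lf t ((s : ℂ) • K) (smK A S M) := by
  refine ⟨hs.mul hA hP h.a, hs.mul hA hP h.b, hs.mul hA hP h.c, hs.mul hA hP h.x,
    hs.mul hA hP h.y, hs.mul hA hP h.w, fun i j => ?_⟩
  show (s : ℂ) * K j i = star ((s : ℂ) * K i j)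
  rw [star_mul', h.hm i j]
  congr 1
  exact (Complex.conj_ofReal s).symm

/-- `K s` -/
theorem HK.kq (hA : AOK D lf A) (hP : PT D t) {K : Mt} {M : KM α} (h : HK D lf t K M) {s : V3}
    {S : V3m α} (hs : TW D lf t s S) : TW D lf t (K.mulVec s) (kqW A M S) := by
  have e : ∀ i, K i 0 * s 0 + K i 1 * s 1 + K i 2 * s 2 = K.mulVec s i := by
    intro i
    rw [Matrix.mulVec, dotProduct, Fin.sum_univ_three]
  have h10 : TOK D lf t (K 1 0) (conjM A M.x) := tc (h.x.conj hA) (h.hm 0 1).symm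
  have h20 : TOK D lf t (K 2 0) (conjM A M.y) := tc (h.y.conj hA) (h.hm 0 2).symm
  have h21 : TOK D lf t (K 2 1) (conjM A M.w) := tc (h.w.conj hA) (h.hm 1 2).symm
  exact ⟨tc (TOK_dot3 hA hP h.a h.x h.y hs.a hs.b hs.c) (e 0),
    tc (TOK_dot3 hA hP h10 h.b h.w hs.a hs.b hs.c) (e 1),
    tc (TOK_dot3 hA hP h20 h21 h.c hs.a hs.b hs.c) (e 2)⟩

/-- `C - (r p^* + p r^*)` -/
theorem HK.up (hA : AOK D lf A) (hP : PT D t) {C : Mt} {M : KM α} (h : HK D lf t C M) {r p : V3}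
    {R P : V3m α} (hr : TW D lf t r R) (hp : TW D lf t p P) :
    HK D lf t (Matrix.of fun i j => C i j - (r i * star (p j) + p i * star (r j)))
      (upK A M R P) := by
  have hre : ∀ {z : ℂ} {Y : Mo α}, TOK D lf t z Y → TOK D lf t (z + star z) (re2M A Y) :=
    fun hz => hz.add hA (hz.conj hA)
  refine ⟨h.a.sub hA (tc (hre (hr.a.mul hA hP (hp.a.conj hA))) ?_),
    h.b.sub hA (tc (hre (hr.b.mul hA hP (hp.b.conj hA))) ?_),
    h.c.sub hA (tc (hre (hr.c.mul hA hP (hp.c.conj hA))) ?_),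
    h.x.sub hA ((hr.a.mul hA hP (hp.b.conj hA)).add hA (hp.a.mul hA hP (hr.b.conj hA))),
    h.y.sub hA ((hr.a.mul hA hP (hp.c.conj hA)).add hA (hp.a.mul hA hP (hr.c.conj hA))),
    h.w.sub hA ((hr.b.mul hA hP (hp.c.conj hA)).add hA (hp.b.mul hA hP (hr.c.conj hA))),
    fun i j => ?_⟩
  · rw [star_mul', star_star]; ring
  · rw [star_mul', star_star]; ring
  · rw [star_mul', star_star]; ring
  · show C j i - (r j * star (p i) + p j * star (r i)) =
      star (C i j - (r i * star (p j) + p i * star (r j)))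
    rw [star_sub, star_add, star_mul', star_mul', star_star, star_star, h.hm i j]
    ring

theorem TW.js (hA : AOK D lf A) (hP : PT D t) {s : V3} {S : V3m α} (hs : TW D lf t s S) :
    TW D lf t (jv s) (jsW A S) := ⟨hs.a, hs.b, TOK_neg hA hP hs.c⟩

/-- `R^* K R`, `R = s s^* J - c0` -/
theorem HK.rg (hA : AOK D lf A) (hP : PT D t) {K : Mt} {M : KM α} (h : HK D lf t K M) {s : V3}
    {S : V3m α} (hs : TW D lf t s S) {c0 : ℝ} {C : Mo α} (hc : TOK D lf t (c0 : ℂ) C) :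
    HK D lf t ((Rk s c0)ᴴ * K * Rk s c0) (rgK A C M S) := by
  have hq := h.kq hA hP hs
  have hp := TW.js hA hP hs
  have hk : TOK D lf t ((1 / 2 : ℂ) * (star (s 0) * K.mulVec s 0 + star (s 1) * K.mulVec s 1 +
      star (s 2) * K.mulVec s 2)) (hkM A S (kqW A M S)) :=
    TOK_hf hA hP (TW.dt hA hP (TW.star hA hs) hq)
  have hcc : TOK D lf t ((c0 * c0 : ℝ) : ℂ) (mulM A C C) := tc (hc.mul hA hP hc) (by push_cast; rfl)
  have h1 := (h.sm hA hP hcc).up hA hP (TW.sub hA (TW.smul hA hP hc hq) (TW.smul hA hP hk hp)) hp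
  exact h1.congr (cgmat h.hm s c0)

/-- `c^* K c` for the letter with the polar vector `s` -/
theorem HK.cg (hA : AOK D lf A) (hP : PT D t) {K : Mt} {M : KM α} (h : HK D lf t K M) {s : V3}
    {S : V3m α} (hs : TW D lf t s S) : HK D lf t ((rfJ 1 s)ᴴ * K * rfJ 1 s) (cgK A M S) := by
  have hq := h.kq hA hP hs
  have hp := TW.js hA hP hs
  have hk : TOK D lf t ((1 / 2 : ℂ) * (star (s 0) * K.mulVec s 0 + star (s 1) * K.mulVec s 1 +
      star (s 2) * K.mulVec s 2)) (hkM A S (kqW A M S)) :=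
    TOK_hf hA hP (TW.dt hA hP (TW.star hA hs) hq)
  have h1 := h.up hA hP (TW.sub hA hq (TW.smul hA hP hk hp)) hp
  refine h1.congr ?_
  have e1 : (rfJ 1 s)ᴴ * K * rfJ 1 s = (Rk s 1)ᴴ * K * Rk s 1 := by
    rw [rfJ_Rk, Matrix.conjTranspose_neg, Matrix.neg_mul, Matrix.neg_mul, Matrix.mul_neg, neg_neg]
  rw [e1, ← cgmat h.hm s 1]
  ext i j
  simp only [Matrix.of_apply, Matrix.smul_apply, Pi.sub_apply, Pi.smul_apply, smul_eq_mul]
  push_cast
  ring

/-- `N^* K N`, `N` a diagonal unitary matrix -/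
theorem HK.dg (hA : AOK D lf A) (hP : PT D t) {K : Mt} {M : KM α} (h : HK D lf t K M)
    {d0 d1 : ℂ} (h0 : ‖d0‖ = 1) (h1 : ‖d1‖ = 1) {g0 g1 g : Mo α}
    (k0 : TOK D lf t (star d0) g0) (k1 : TOK D lf t (star d1) g1)
    (k : TOK D lf t (star d0 * d1) g) :
    HK D lf t ((Matrix.diagonal ![d0, d1, 1])ᴴ * K * Matrix.diagonal ![d0, d1, 1])
      (dgK A g0 g1 g M) := by
  have e : ∀ i j, ((Matrix.diagonal ![d0, d1, 1])ᴴ * K * Matrix.diagonal ![d0, d1, 1]) i j =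
      star ((![d0, d1, 1] : V3) i) * K i j * (![d0, d1, 1] : V3) j := by
    intro i j
    rw [Matrix.mul_diagonal, Matrix.diagonal_conjTranspose, Matrix.diagonal_mul]
    rfl
  have u0 : star d0 * d0 = 1 := by
    have := Complex.conj_mul' d0
    rw [h0] at this
    simpa using this
  have u1 : star d1 * d1 = 1 := by
    have := Complex.conj_mul' d1
    rw [h1] at this
    simpa using this
  refine ⟨tc h.a ?_, tc h.b ?_, tc h.c ?_, tc (k.mul hA hP h.x) ?_, tc (k0.mul hA hP h.y) ?_,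
    tc (k1.mul hA hP h.w) ?_, hm_cong h.hm _⟩
  · rw [e]
    show K 0 0 = star d0 * K 0 0 * d0
    linear_combination (-(K 0 0)) * u0
  · rw [e]
    show K 1 1 = star d1 * K 1 1 * d1
    linear_combination (-(K 1 1)) * u1
  · rw [e]
    show K 2 2 = star (1 : ℂ) * K 2 2 * 1
    rw [star_one]
    ring
  · rw [e]
    show star d0 * d1 * K 0 1 = star d0 * K 0 1 * d1
    ring
  · rw [e]
    show star d0 * K 0 2 = star d0 * K 0 2 * 1
    ring
  · rw [e]
    show star d1 * K 1 2 = star d1 * K 1 2 * 1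
    ring

/-- `N^* K N` for a general matrix -/
theorem HK.g9 (hA : AOK D lf A) (hP : PT D t) {K : Mt} {M : KM α} (h : HK D lf t K M)
    {N : Mt} {V : V9 α} (hN : TV D lf t N V) : HK D lf t (Nᴴ * K * N) (cg9 A V M) := by
  have q0 : TW D lf t (K.mulVec ![N 0 0, N 1 0, N 2 0]) (kqW A M ⟨V.a, V.d, V.g⟩) :=
    h.kq hA hP ⟨hN.a, hN.d, hN.g⟩
  have q1 : TW D lf t (K.mulVec ![N 0 1, N 1 1, N 2 1]) (kqW A M ⟨V.b, V.e, V.h⟩) :=
    h.kq hA hP ⟨hN.b, hN.e, hN.h⟩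
  have q2 : TW D lf t (K.mulVec ![N 0 2, N 1 2, N 2 2]) (kqW A M ⟨V.c, V.f, V.i⟩) :=
    h.kq hA hP ⟨hN.c, hN.f, hN.i⟩
  have a := hN.a.conj hA
  have b := hN.b.conj hA
  have c := hN.c.conj hA
  have d := hN.d.conj hA
  have e := hN.e.conj hA
  have f := hN.f.conj hA
  have g := hN.g.conj hA
  have h' := hN.h.conj hA
  have i' := hN.i.conj hA
  refine ⟨tc (TOK_dot3 hA hP a d g q0.a q0.b q0.c) ?_, tc (TOK_dot3 hA hP b e h' q1.a q1.b q1.c) ?_,
    tc (TOK_dot3 hA hP c f i' q2.a q2.b q2.c) ?_, tc (TOK_dot3 hA hP a d g q1.a q1.b q1.c) ?_,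
    tc (TOK_dot3 hA hP a d g q2.a q2.b q2.c) ?_, tc (TOK_dot3 hA hP b e h' q2.a q2.b q2.c) ?_,
    hm_cong h.hm _⟩ <;>
  · simp only [Matrix.mul_apply, Matrix.conjTranspose_apply, Fin.sum_univ_three, Matrix.mulVec,
      dotProduct, Matrix.cons_val_zero, Matrix.cons_val_one, Matrix.cons_val]
    ring

theorem HK_ll (hA : AOK D lf A) (hP : PT D t) {l : V3} {L : V3m α} (hl : TW D lf t l L) :
    HK D lf t (ll l) (llK A L) := by
  refine ⟨hl.a.mul hA hP (hl.a.conj hA), hl.b.mul hA hP (hl.b.conj hA),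
    tc (hl.c.mul hA hP (hl.c.conj hA)) ?_, hl.a.mul hA hP (hl.b.conj hA),
    tc (TOK_neg hA hP (hl.a.mul hA hP (hl.c.conj hA))) ?_,
    tc (TOK_neg hA hP (hl.b.mul hA hP (hl.c.conj hA))) ?_, fun i j => ?_⟩
  · show l 2 * star (l 2) = -l 2 * star (-l 2)
    rw [star_neg]
    ring
  · show -(l 0 * star (l 2)) = l 0 * star (-l 2)
    rw [star_neg]
    ring
  · show -(l 1 * star (l 2)) = l 1 * star (-l 2)
    rw [star_neg]
    ring
  · show jv l j * star (jv l i) = star (jv l i * star (jv l j))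
    rw [star_mul', star_star]
    ring

theorem TW.cu (hA : AOK D lf A) (hP : PT D t) {v U : V3} {V W : V3m α} (hv : TW D lf t v V)
    (hU : TW D lf t U W) : TW D lf t ((rfJ 1 v).mulVec U) (cuW A V W) := by
  have h1 := TW.dt hA hP hU (TW.jw hA hP hv)
  refine (TW.sub hA hU (TW.smul hA hP (tc h1 ?_) hv)).congr (rfJ_vec v U).symm
  show U 0 * star (v 0) + U 1 * star (v 1) + U 2 * -star (v 2) = brJ 1 U v
  unfold brJ
  push_cast
  ring

theorem TW_uv (hA : AOK D lf A) (hP : PT D t) (C : C3) :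
    TW D lf t (uv C) (cstW A C (nat_lit 0)) := by
  refine TW_cst hA hP fun i => ?_
  have e : (UU : ℂ) * uv C i = cz (C.get i) := by
    unfold uv
    rw [mul_div_cancel₀ _ UUc_ne]
  rw [e, sub_self, norm_zero]
  exact Nat.cast_nonneg _

/-- rotations: `G` is a model of `D^* (c^* K c) D` -/
theorem HK.rot (hA : AOK D lf A) (hP : PT D t) {K : Mt} {M : KM α} {v : V3}
    (h : HK D lf t ((rfJ 1 v)ᴴ * K * rfJ 1 v) M) {d0 d1 : ℂ} (h0 : ‖d0‖ = 1) (h1 : ‖d1‖ = 1)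
    {g0 g1 g : Mo α} (k0 : TOK D lf t (star d0) g0) (k1 : TOK D lf t (star d1) g1)
    (k : TOK D lf t (star d0 * d1) g) :
    HK D lf t ((rfJ 1 v * Matrix.diagonal ![d0, d1, 1])ᴴ * K *
      (rfJ 1 v * Matrix.diagonal ![d0, d1, 1])) (dgK A g0 g1 g M) :=
  (h.dg hA hP h0 h1 k0 k1 k).congr (cong_cong _ _ _)

/-- runs: `S` is a model of `s - ρ v`, `C` of `w + ρ² - w ρ` -/
theorem HK.run (hA : AOK D lf A) (hP : PT D t) {K : Mt} {M : KM α} {v s : V3}
    (h : HK D lf t ((rfJ 1 v)ᴴ * K * rfJ 1 v) M) {w ρ : ℝ} {S : V3m α} {C : Mo α}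
    (hs : TW D lf t (fun i => s i - ρ * v i) S)
    (hc : TOK D lf t ((w + ρ ^ 2 - w * ρ : ℝ) : ℂ) C) :
    HK D lf t ((rfJ 1 v * nR w ρ s v)ᴴ * K * (rfJ 1 v * nR w ρ s v)) (rgK A C M S) := by
  rw [nR_Rk]
  exact (h.rg hA hP hs hc).congr (cong_cong _ _ _)

/-- general matrices -/
theorem HK.gen (hA : AOK D lf A) (hP : PT D t) {K c N : Mt} {M : KM α} {V : V9 α}
    (h : HK D lf t (cᴴ * K * c) M) (hN : TV D lf t N V) :
    HK D lf t ((c * N)ᴴ * K * (c * N)) (cg9 A V M) :=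
  (h.g9 hA hP hN).congr (cong_cong _ _ _)


/-! ### tests of vectors -/

/-- `2 ^ (-40) |y|^2 <= |y^* J l|^2` for the vectors `y` of the region `K` -/
def doG {α : Type} (A : Alg α) (G : Nat → Nat → H6 → KM α → KM α → Bool) (l0 : Nat) (m : Z)
    (l : V3m α) (K : KM α) : Bool := G (nat_lit 16777216) l0 (jH m) (llK A l) K
def vaK {α : Type} (A : Alg α) (K : KM α) (U : V3m α) : KM α :=
  ⟨dtW A (cjW A U) (kqW A K U), cst A (nat_lit 281474976710656) (nat_lit 0),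
    cst A (nat_lit 281474976710656) (nat_lit 0), zeM A, zeM A, zeM A⟩
/-- the value of the form is positive -/
def vaG {α : Type} (A : Alg α) (G : Nat → Nat → H6 → KM α → KM α → Bool) (K : KM α)
    (U : V3m α) : Bool :=
  G (nat_lit 0) (nat_lit 0) (jH (Z.p (nat_lit 0))) (vaK A K U) (vaK A K U)

theorem do_ok {G : Nat → Nat → H6 → KM α → KM α → Bool} (hG : GeL D lf G) (hA : AOK D lf A)
    (hP : PT D t) {K : Mt} {M : KM α} (hK : HK D lf t K M) {l : V3}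
    {Lm : V3m α} (hl : TW D lf t l Lm) {l0 : ℕ} {m : Z}
    (ht : doG A G l0 m Lm M = true) (y : V3) (hy : y ∈ NZ K) :
    ‖y‖ ≤ 1048576 * ‖brJ 1 l y‖ := by
  have h := HK.ge hG hP (HK_ll hA hP hl) hK ht y
  rw [hr_ll, hy.2, mul_zero, add_zero] at h
  have h1 := mul_nonneg (Nat.cast_nonneg (α := ℝ) l0) hy.1
  have h2 := nq_ge y
  have e1 : ((nat_lit 16777216 : ℕ) : ℝ) / UU = 1 / 16777216 := by
    unfold UU
    norm_num
  rw [e1] at h
  have h3 : ‖y‖ ^ 2 ≤ (1048576 * ‖brJ 1 l y‖) ^ 2 := by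
    have : (1048576 * ‖brJ 1 l y‖) ^ 2 = 16777216 * (65536 * ‖brJ 1 l y‖ ^ 2) := by ring
    rw [this]
    nlinarith
  exact le_of_sq_le_sq h3 (by positivity)

theorem doU_ok {G : Nat → Nat → H6 → KM α → KM α → Bool} (hG : GeL D lf G) (hA : AOK D lf A)
    (hP : PT D t) {K : Mt} {M : KM α} (hK : HK D lf t K M)
    {v U : V3} {V W : V3m α} (hv : TW D lf t v V) (hU : TW D lf t U W)
    {l0 : ℕ} {m : Z} (ht : doG A G l0 m (cuW A V W) M = true) (y : V3)
    (hy : y ∈ NZ K) : ‖y‖ ≤ 1048576 * ‖brJ 1 ((rfJ 1 v).mulVec U) y‖ :=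
  do_ok hG hA hP hK (TW.cu hA hP hv hU) ht y hy

theorem doY_ok {G : Nat → Nat → H6 → KM α → KM α → Bool} (hG : GeL D lf G) (hA : AOK D lf A)
    (hP : PT D t) {K : Mt} {M : KM α} (hK : HK D lf t K M)
    {v U : V3} {V W : V3m α} (hv : TW D lf t v V) (hU : TW D lf t U W)
    {l0 : ℕ} {m : Z} (ht : doG A G l0 m (cuW A V W) M = true) (y : V3)
    (hy : y ∈ NZ K) : ‖y‖ ≤ 1048576 * ‖brJ 1 ((rfJ 1 v).mulVec y) U‖ := by
  have h := doU_ok hG hA hP hK hv hU ht y hy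
  have e : brJ 1 ((rfJ 1 v).mulVec y) U = star (brJ 1 ((rfJ 1 v).mulVec U) y) := by
    rw [← adJ_brJ, adJ_rfJ]
  rw [e, norm_star]
  exact h

/-- THE TESTS `stU`, `enY` -/
theorem va_ok {G : Nat → Nat → H6 → KM α → KM α → Bool} (hG : GeL D lf G) (hA : AOK D lf A)
    (hP : PT D t) {K : Mt} {M : KM α} (hK : HK D lf t K M) {U : V3}
    {W : V3m α} (hU : TW D lf t U W) (h0 : hr J1 U = 0)
    (ht : vaG A G M W = true) : U ∈ NZ K := by
  refine ⟨?_, h0⟩
  have h1 : TOK D lf t (star (U 0) * K.mulVec U 0 + star (U 1) * K.mulVec U 1 +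
      star (U 2) * K.mulVec U 2) (dtW A (cjW A W) (kqW A M W)) :=
    TW.dt hA hP (TW.star hA hU) (hK.kq hA hP hU)
  set κ := star (U 0) * K.mulVec U 0 + star (U 1) * K.mulVec U 1 + star (U 2) * K.mulVec U 2
    with hκ
  have hk := kap_real hK.hm U
  rw [← hκ] at hk
  have hone : TOK D lf t (1 : ℂ) (cst A (nat_lit 281474976710656) (nat_lit 0)) :=
    TOK.cst' hA hP (by unfold UU; norm_num)
  have hH : HK D lf t !![κ, 0, 0; 0, 1, 0; 0, 0, 1] (vaK A M W) := by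
    refine ⟨h1, hone, hone, TOK_ze hA hP, TOK_ze hA hP, TOK_ze hA hP, fun i j => ?_⟩
    fin_cases i <;> fin_cases j <;> first | exact hk.symm | simp
  have h2 := HK.pos hG hP hH ht ![1, 0, 0]
  have e : hr !![κ, 0, 0; 0, 1, 0; 0, 0, 1] ![1, 0, 0] = hr K U := by
    unfold hr hv
    simp only [Fin.sum_univ_three, hκ, Matrix.mulVec, dotProduct, Matrix.of_apply,
      Matrix.cons_val_zero, Matrix.cons_val_one, Matrix.cons_val, Matrix.cons_val', star_one,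
      star_zero, mul_zero, mul_one, one_mul, add_zero]
    congr 1
    ring
  rw [e] at h2
  exact h2

end Pool.Agent.Helper91.TMK.TST
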